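import Pool.Agent.Y142.SS.Stm
import Pool.Agent.Y331.ZD.Krq

set_option autoImplicit false

/-! Project Y142-SS, task KRS: Krasner, general form (helper518; adaptation of Y331.ZD.Krq by
helper331 and of Y547.ZI.Nice by helper547). -/

open Polynomial Filter Topology
open Pool.Agent.Y142.ZI Pool.Agent.Y142.ZD
open Pool.Agent.Y331.ZD (um_add um_sub near_split norm_map exists_mu exists_bd root_aut)
open Pool.Agent.Y547.ZI (norm_nat one_div_le_norm)

namespace Pool.Agent.Y518.SS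

variable {ℓ : ℕ} [hℓ : Fact ℓ.Prime]

/-- a root of unity close to one is one (all primes) -/
lemma root_one (w : AlgebraicClosure ℚ_[ℓ]) (hw : ‖w‖ ≤ 1 / 3) (k : ℕ)
    (hk : 0 < k) (h : (1 + w) ^ k = 1) : w = 0 := by
  by_contra hw0
  have hwpos : 0 < ‖w‖ := norm_pos_iff.mpr hw0
  have hkn : (0 : ℝ) < ‖((k : ℕ) : AlgebraicClosure ℚ_[ℓ])‖ := by
    rw [norm_nat]
    exact lt_of_lt_of_le (by positivity) (one_div_le_norm k hk)
  -- the binomial expansion
  have h3 : (k : AlgebraicClosure ℚ_[ℓ]) * w =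
      -∑ i ∈ Finset.Icc 2 k, w ^ i * (k.choose i : AlgebraicClosure ℚ_[ℓ]) := by
    rw [add_comm, add_pow] at h
    simp only [one_pow, mul_one] at h
    have hsplit : Finset.range (k + 1) = insert 0 (insert 1 (Finset.Icc 2 k)) := by
      ext j
      simp only [Finset.mem_range, Finset.mem_insert, Finset.mem_Icc]
      omega
    rw [hsplit, Finset.sum_insert (by simp), Finset.sum_insert (by simp)] at h
    simp only [pow_zero, Nat.choose_zero_right, Nat.cast_one, mul_one, pow_one,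
      Nat.choose_one_right] at h
    linear_combination h
  have hterm : ∀ i ∈ Finset.Icc 2 k,
      ‖w ^ i * (k.choose i : AlgebraicClosure ℚ_[ℓ])‖ <
        ‖(k : AlgebraicClosure ℚ_[ℓ]) * w‖ := by
    intro i hi
    rw [Finset.mem_Icc] at hi
    obtain ⟨j, rfl⟩ : ∃ j, i = j + 2 := ⟨i - 2, by omega⟩
    obtain ⟨n, rfl⟩ : ∃ n, k = n + 1 := ⟨k - 1, by omega⟩
    have h4 : (n + 1) * n.choose (j + 1) = (n + 1).choose (j + 2) * (j + 2) :=
      Nat.add_one_mul_choose_eq n (j + 1)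
    have h5 : ‖((n + 1 : ℕ) : AlgebraicClosure ℚ_[ℓ])‖ *
        ‖((n.choose (j + 1) : ℕ) : AlgebraicClosure ℚ_[ℓ])‖ =
        ‖(((n + 1).choose (j + 2) : ℕ) : AlgebraicClosure ℚ_[ℓ])‖ *
          ‖((j + 2 : ℕ) : AlgebraicClosure ℚ_[ℓ])‖ := by
      rw [← norm_mul, ← norm_mul, ← Nat.cast_mul, ← Nat.cast_mul, h4]
    have h6 : ‖((n.choose (j + 1) : ℕ) : AlgebraicClosure ℚ_[ℓ])‖ ≤ 1 := by
      rw [norm_nat]
      exact_mod_cast Padic.norm_int_le_one (n.choose (j + 1) : ℤ)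
    have h7 : (1 : ℝ) / ((j + 2 : ℕ) : ℝ) ≤ ‖((j + 2 : ℕ) : AlgebraicClosure ℚ_[ℓ])‖ := by
      rw [norm_nat]
      exact one_div_le_norm _ (by omega)
    have hj : ‖w‖ ^ (j + 1) < 1 / ((j + 2 : ℕ) : ℝ) := by
      have h9 : ‖w‖ ^ (j + 1) ≤ (1 / 3) ^ (j + 1) := pow_le_pow_left₀ (norm_nonneg _) hw _
      refine h9.trans_lt ?_
      rw [one_div_pow]
      refine one_div_lt_one_div_of_lt (by positivity) ?_
      have h10 : ∀ j : ℕ, j + 2 < 3 ^ (j + 1) := by
        intro j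
        induction j with
        | zero => norm_num
        | succ j ih => rw [pow_succ]; omega
      exact_mod_cast h10 j
    have hpos : 0 < ‖((j + 2 : ℕ) : AlgebraicClosure ℚ_[ℓ])‖ :=
      lt_of_lt_of_le (by positivity) h7
    rw [norm_mul, norm_mul, norm_pow]
    have h11 : ‖w‖ ^ (j + 1) < ‖((j + 2 : ℕ) : AlgebraicClosure ℚ_[ℓ])‖ := hj.trans_le h7
    have h12 : ‖(((n + 1).choose (j + 2) : ℕ) : AlgebraicClosure ℚ_[ℓ])‖ ≤
        ‖((n + 1 : ℕ) : AlgebraicClosure ℚ_[ℓ])‖ / ‖((j + 2 : ℕ) : AlgebraicClosure ℚ_[ℓ])‖ := by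
      rw [le_div_iff₀ hpos, ← h5]
      exact mul_le_of_le_one_right (norm_nonneg _) h6
    calc ‖w‖ ^ (j + 2) * ‖(((n + 1).choose (j + 2) : ℕ) : AlgebraicClosure ℚ_[ℓ])‖
        ≤ ‖w‖ ^ (j + 2) * (‖((n + 1 : ℕ) : AlgebraicClosure ℚ_[ℓ])‖ /
            ‖((j + 2 : ℕ) : AlgebraicClosure ℚ_[ℓ])‖) :=
          mul_le_mul_of_nonneg_left h12 (by positivity)
      _ = (‖((n + 1 : ℕ) : AlgebraicClosure ℚ_[ℓ])‖ * ‖w‖) *
            (‖w‖ ^ (j + 1) / ‖((j + 2 : ℕ) : AlgebraicClosure ℚ_[ℓ])‖) := by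
          rw [pow_succ]; ring
      _ < (‖((n + 1 : ℕ) : AlgebraicClosure ℚ_[ℓ])‖ * ‖w‖) * 1 := by
          refine mul_lt_mul_of_pos_left ?_ (by positivity)
          rw [div_lt_one hpos]
          exact h11
      _ = _ := mul_one _
  rcases Finset.eq_empty_or_nonempty (Finset.Icc 2 k) with he | hne
  · rw [he, Finset.sum_empty, neg_zero] at h3
    have h4 := congrArg norm h3
    rw [norm_mul, norm_zero] at h4
    have : 0 < ‖(k : AlgebraicClosure ℚ_[ℓ])‖ * ‖w‖ := by positivity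
    linarith
  · obtain ⟨i, hi, hle⟩ := IsUltrametricDist.exists_norm_finsetSum_le_of_nonempty hne
      (fun i => w ^ i * (k.choose i : AlgebraicClosure ℚ_[ℓ]))
    have h4 := congrArg norm h3
    rw [norm_neg] at h4
    have h5 := hterm i hi
    rw [h4] at h5
    exact absurd hle (not_le.mpr h5)

lemma nice (x y : AlgebraicClosure ℚ_[ℓ]) (k : ℕ) (hk : 0 < k) (hx : ‖x - 1‖ ≤ 1 / 3)
    (hy : ‖y - 1‖ ≤ 1 / 3) (hxy : x ^ k = y ^ k) : x = y := by
  have hy1 : ‖y‖ = 1 := by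
    have h1 : y = 1 + (y - 1) := by ring
    rw [h1]
    have h3 : ‖(1 : AlgebraicClosure ℚ_[ℓ])‖ ≠ ‖y - 1‖ := by
      rw [norm_one]
      exact (lt_of_le_of_lt hy (by norm_num)).ne'
    rw [IsUltrametricDist.norm_add_eq_max_of_norm_ne_norm h3, norm_one, max_eq_left]
    exact hy.trans (by norm_num)
  have hy0 : y ≠ 0 := by
    rintro rfl
    rw [norm_zero] at hy1
    exact zero_ne_one hy1
  have hxy' : ‖x - y‖ ≤ 1 / 3 := by
    have h1 : x - y = (x - 1) + -(y - 1) := by ring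
    rw [h1]
    refine (IsUltrametricDist.norm_add_le_max _ _).trans (max_le hx ?_)
    rw [norm_neg]; exact hy
  have h3 : (1 + (x - y) / y) ^ k = 1 := by
    have h4 : 1 + (x - y) / y = x / y := by field_simp; ring
    rw [h4, div_pow, hxy, div_self (pow_ne_zero _ hy0)]
  have h5 := root_one ((x - y) / y) (by rw [norm_div, hy1, div_one]; exact hxy') k hk h3
  rw [div_eq_zero_iff] at h5
  rcases h5 with h5 | h5
  · exact sub_eq_zero.mp h5
  · exact absurd h5 hy0

/-- task KRS -/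
theorem t : Pool.Agent.Y142.SS.S_KRS := by
  classical
  intro ℓ _ R₀ hR₀ hsep
  set L := AlgebraicClosure ℚ_[ℓ] with hL
  set i : ℚ_[ℓ] →+* L := algebraMap ℚ_[ℓ] L with hi
  have hnorm : ∀ x : ℚ_[ℓ], ‖i x‖ = ‖x‖ := norm_map
  -- the roots of `R₀`
  set J : Type := {r : L // r ∈ (R₀.map i).roots.toFinset} with hJ
  set b : J → L := Subtype.val with hb
  have hbinj : Function.Injective b := Subtype.val_injective
  have hsepP : (R₀.map i).Separable := hsep.map
  have hndR : (R₀.map i).roots.Nodup := nodup_roots hsepP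
  have hcardJ : Fintype.card J = R₀.natDegree := by
    rw [Fintype.card_coe, Multiset.toFinset_card_of_nodup hndR,
      ← (IsAlgClosed.splits (R₀.map i)).natDegree_eq_card_roots, natDegree_map]
  have hroot0 : ∀ s : L, aeval s R₀ = 0 ↔ ∃ j : J, b j = s := by
    intro s
    constructor
    · intro h
      refine ⟨⟨s, ?_⟩, rfl⟩
      rw [Multiset.mem_toFinset, mem_roots (hR₀.map i).ne_zero, IsRoot, eval_map, ← aeval_def]
      exact h
    · rintro ⟨⟨s', hs'⟩, rfl⟩
      rw [Multiset.mem_toFinset, mem_roots (hR₀.map i).ne_zero, IsRoot, eval_map, ← aeval_def] at hs'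
      exact hs'
  have hprod0 : R₀.map i = ∏ j : J, (X - C (b j)) := by
    conv_lhs => rw [(IsAlgClosed.splits (R₀.map i)).eq_prod_roots_of_monic (hR₀.map i)]
    rw [Finset.prod_coe_sort (R₀.map i).roots.toFinset (fun r => (X - C r : L[X])),
      Finset.prod, Multiset.toFinset_val, Multiset.dedup_eq_self.mpr hndR]
  -- the constants
  obtain ⟨M, hM1, hM⟩ := exists_bd (fun j : J => ‖b j‖)
  obtain ⟨μ, hμ0, hμ1, hμ⟩ := exists_mu
    (fun q : J × J => ‖b q.1 - b q.2‖)
    (fun q => b q.1 - b q.2 ≠ 0)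
    (fun q hq => norm_pos_iff.mpr hq)
  have hsep2 : ∀ j1 j2 : J, ‖b j1 - b j2‖ < μ → j1 = j2 := by
    intro j1 j2 h
    by_contra hne
    have h1 := hμ (j1, j2) (by
      dsimp only
      intro h0
      exact hne (hbinj (sub_eq_zero.1 h0)))
    exact absurd h1 (not_le.mpr h)
  have hℓ1 : (1 : ℝ) < ℓ := by exact_mod_cast (Fact.out : ℓ.Prime).one_lt
  have hℓ0 : (0 : ℝ) < ℓ := by linarith
  have hinv1 : (ℓ : ℝ)⁻¹ < 1 := inv_lt_one_of_one_lt₀ hℓ1
  have hinv0 : 0 < (ℓ : ℝ)⁻¹ := inv_pos.2 hℓ0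
  have hM0 : 0 < M := by linarith
  obtain ⟨k₀, hk₀⟩ := exists_pow_lt_of_lt_one
    (show 0 < 1 / 3 / M by positivity) hinv1
  have hεpos : 0 < μ ^ Fintype.card J / (2 * M ^ Fintype.card J) := by positivity
  have hε1 : μ ^ Fintype.card J / (2 * M ^ Fintype.card J) * M ^ Fintype.card J <
      μ ^ Fintype.card J := by
    have h1 : μ ^ Fintype.card J / (2 * M ^ Fintype.card J) * M ^ Fintype.card J =
        μ ^ Fintype.card J / 2 := by field_simp
    rw [h1]
    have : 0 < μ ^ Fintype.card J := by positivity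
    linarith
  refine ⟨μ ^ Fintype.card J / (2 * M ^ Fintype.card J), k₀, hεpos, ?_⟩
  intro k Q hk hQ hQdeg hcl
  obtain ⟨r, hrinj, hrb, hprod⟩ := near_split (b := b) (P := (resc ℓ k Q).map i) hμ0 hM1 hM
    (fun u v huv => by
      by_contra hlt
      push Not at hlt
      exact huv (hsep2 u v hlt))
    hεpos.le hε1 ((resc_monic k hQ).map i)
    (by rw [natDegree_map, resc_natDegree, hQdeg, hcardJ])
    (fun j => by
      rw [← hprod0, ← Polynomial.map_sub, coeff_map, hnorm]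
      exact (hcl j).le)
  have hLk : ((ℓ : ℚ_[ℓ]) ^ k) ≠ 0 := ell_pow_ne k
  set la : L := i ((ℓ : ℚ_[ℓ]) ^ k) with hla
  have hla0 : la ≠ 0 := (_root_.map_ne_zero _).2 hLk
  have hlan : ‖la‖ < 1 / 3 / M := by
    rw [hla, hnorm, norm_pow, Padic.norm_p]
    exact (pow_le_pow_of_le_one hinv0.le hinv1.le hk).trans_lt hk₀
  have hr1 : ∀ j, ‖r j‖ ≤ M := by
    intro j
    have h1 : r j = (r j - b j) + b j := by ring
    rw [h1]
    exact (IsUltrametricDist.norm_add_le_max _ _).trans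
      (max_le ((hrb j).le.trans (hμ1.trans hM1)) (hM j))
  have hlin : ∀ u, ‖la * r u‖ ≤ 1 / 3 := by
    intro u
    rw [norm_mul]
    calc ‖la‖ * ‖r u‖ ≤ (1 / 3 / M) * M := by
          refine mul_le_mul hlan.le (hr1 u) (norm_nonneg _) (by positivity)
      _ = 1 / 3 := by field_simp
  -- the roots of `Q`
  set q : J → L := fun j => 1 + la * r j with hq
  have hqinj : Function.Injective q := by
    intro u v huv
    simp only [hq, add_right_inj] at huv
    exact hrinj (mul_left_cancel₀ hla0 huv)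
  have hrootR : ∀ s : L, aeval s (resc ℓ k Q) = 0 ↔ ∃ j, s = r j := by
    intro s
    rw [aeval_def, ← eval_map, ← hi, hprod, eval_prod, Finset.prod_eq_zero_iff]
    simp [sub_eq_zero]
  have hQroot : ∀ x : L, aeval x Q = 0 → ∃ j, q j = x := by
    intro x hx
    have h1 := (aeval_resc k Q x).mpr hx
    obtain ⟨j, hj⟩ := (hrootR _).mp h1
    refine ⟨j, ?_⟩
    simp only [hq]
    rw [← hj, hla, mul_div_cancel₀ _ hla0]
    ring
  have hQroot' : ∀ j, aeval (q j) Q = 0 := by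
    intro j
    have h1 : aeval (r j) (resc ℓ k Q) = 0 := (hrootR _).mpr ⟨j, rfl⟩
    rw [aeval_resc'] at h1
    exact h1
  have hsepR : (resc ℓ k Q).Separable := by
    refine (separable_map i).mp ?_
    rw [hprod]
    exact (separable_prod_X_sub_C_iff (f := r)).mpr hrinj
  -- equivariance
  have hequiv : ∀ (τ : L ≃ₐ[ℚ_[ℓ]] L) (j j' : J), b j' = τ (b j) → q j' = τ (q j) := by
    intro τ j j' hjj
    have h1 : aeval (τ (r j)) (resc ℓ k Q) = 0 := root_aut τ ((hrootR _).mpr ⟨j, rfl⟩)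
    obtain ⟨j'', hj''⟩ := (hrootR _).mp h1
    have h2 : ‖r j'' - b j'‖ < μ := by
      rw [← hj'', hjj, ← map_sub, Pool.Agent.Y331.ZD.norm_inv']
      exact hrb j
    have h3 : j'' = j' := by
      apply hsep2
      have : b j'' - b j' = (r j'' - b j') - (r j'' - b j'') := by ring
      rw [this]
      exact um_sub h2 (hrb j'')
    simp only [hq]
    rw [map_add, map_one, map_mul, hj'', h3]
    congr 2
    exact (τ.commutes _).symm
  refine ⟨separable_of_resc k hsepR, ?_, ?_⟩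
  · -- distinct powers
    intro j x y hj hx hy hxy
    obtain ⟨u, rfl⟩ := hQroot x hx
    obtain ⟨v, rfl⟩ := hQroot y hy
    refine nice _ _ j hj ?_ ?_ hxy
    · have : q u - 1 = la * r u := by simp only [hq]; ring
      rw [this]
      exact hlin u
    · have : q v - 1 = la * r v := by simp only [hq]; ring
      rw [this]
      exact hlin v
  · -- the bijection
    set φ : L → L := fun s => if h : aeval s R₀ = 0 then q (Classical.choose ((hroot0 s).mp h))
      else 0 with hφ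
    have hφb : ∀ j, φ (b j) = q j := by
      intro j
      have h : aeval (b j) R₀ = 0 := (hroot0 _).mpr ⟨j, rfl⟩
      have h1 := Classical.choose_spec ((hroot0 (b j)).mp h)
      simp only [hφ]
      rw [dif_pos h, hbinj h1]
    refine ⟨φ, ?_, ?_, ?_, ?_⟩
    · intro s hs
      obtain ⟨j, rfl⟩ := (hroot0 s).mp hs
      rw [hφb]
      exact hQroot' j
    · intro s s' hs hs' h
      obtain ⟨j, rfl⟩ := (hroot0 s).mp hs
      obtain ⟨j', rfl⟩ := (hroot0 s').mp hs'
      rw [hφb, hφb] at h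
      rw [hqinj h]
    · intro x hx
      obtain ⟨j, rfl⟩ := hQroot x hx
      exact ⟨b j, (hroot0 _).mpr ⟨j, rfl⟩, hφb j⟩
    · intro τ s hs
      obtain ⟨j, rfl⟩ := (hroot0 s).mp hs
      obtain ⟨j', hj'⟩ := (hroot0 _).mp (root_aut τ hs)
      rw [← hj', hφb, hφb]
      exact hequiv τ j j' hj'

end Pool.Agent.Y518.SS
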